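import Pool.Agent.Helper35.HS3.GoalsC

/-!
# Project HS3, packet GRON
-/

namespace Pool.Agent.Helper3.HS3.GRON

open MeasureTheory Set Filter Topology Metric
open Pool.Agent.Helper35.HS3

/-- The square of the positive part is differentiable. -/
theorem hasDerivAt_maxsq (s : ℝ) : HasDerivAt (fun t : ℝ => (max 0 t) ^ 2) (2 * max 0 s) s := by
  rcases lt_trichotomy s 0 with h | h | h
  · rw [max_eq_left h.le, mul_zero]
    refine (hasDerivAt_const s (0 : ℝ)).congr_of_eventuallyEq ?_
    filter_upwards [Iio_mem_nhds h] with t ht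
    rw [max_eq_left (le_of_lt ht)]
    norm_num
  · subst h
    rw [max_self, mul_zero, hasDerivAt_iff_isLittleO]
    simp only [max_self, ne_eq, OfNat.ofNat_ne_zero, not_false_eq_true, zero_pow, sub_zero,
      smul_eq_mul, mul_zero]
    refine Asymptotics.IsBigO.trans_isLittleO (g := fun t : ℝ => t ^ 2) ?_ ?_
    · refine Asymptotics.IsBigO.of_bound 1 (Eventually.of_forall fun t => ?_)
      rw [Real.norm_eq_abs, Real.norm_eq_abs, abs_pow, abs_pow, one_mul]
      refine pow_le_pow_left₀ (abs_nonneg _) ?_ 2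
      rw [abs_of_nonneg (le_max_left _ _)]
      exact max_le (abs_nonneg _) (le_abs_self _)
    · exact Asymptotics.isLittleO_pow_id (by norm_num)
  · rw [max_eq_right h.le]
    have h1 : HasDerivAt (fun t : ℝ => t ^ 2) (2 * s) s := by
      simpa using hasDerivAt_pow 2 s
    refine h1.congr_of_eventuallyEq ?_
    filter_upwards [Ioi_mem_nhds h] with t ht
    rw [max_eq_right (le_of_lt ht)]

theorem proof : GRON_stmt := by
  intro u a L hu hL hb x₁ hx₁ x
  set v : E := x - x₁ with hv
  set M : ℝ := L * ‖v‖ with hM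
  have hM0 : 0 ≤ M := mul_nonneg hL (norm_nonneg _)
  set g : ℝ → ℝ := fun t => u (x₁ + t • v) - a with hg
  have hgd : ∀ t, HasDerivAt g (fderiv ℝ u (x₁ + t • v) v) t := by
    intro t
    have h1 : HasDerivAt (fun t : ℝ => x₁ + t • v) v t := by
      have := ((hasDerivAt_id t).smul_const v).const_add x₁
      simpa using this
    have h2 : HasFDerivAt u (fderiv ℝ u (x₁ + t • v)) (x₁ + t • v) :=
      (hu.contDiffAt.differentiableAt (by norm_num)).hasFDerivAt
    exact (h2.comp_hasDerivAt t h1).sub_const a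
  have hgb : ∀ t, |fderiv ℝ u (x₁ + t • v) v| ≤ M * max 0 (g t) := by
    intro t
    have h1 : ‖fderiv ℝ u (x₁ + t • v)‖ ≤ L * max 0 (g t) := by
      have h2 := (norm_fderiv_sq_le u (x₁ + t • v)).trans (hb (x₁ + t • v))
      exact le_of_sq_le_sq h2 (mul_nonneg hL (le_max_left _ _))
    have h3 := (fderiv ℝ u (x₁ + t • v)).le_opNorm v
    rw [Real.norm_eq_abs] at h3
    refine h3.trans ?_
    calc ‖fderiv ℝ u (x₁ + t • v)‖ * ‖v‖ ≤ L * max 0 (g t) * ‖v‖ :=
          mul_le_mul_of_nonneg_right h1 (norm_nonneg _)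
      _ = M * max 0 (g t) := by rw [hM]; ring
  -- the function `exp (- 2 M t) (max 0 (g t)) ^ 2` is antitone
  have hkd : ∀ t, HasDerivAt (fun t => Real.exp (-(2 * M) * t) * (max 0 (g t)) ^ 2)
      (Real.exp (-(2 * M) * t) * (-(2 * M)) * (max 0 (g t)) ^ 2 +
        Real.exp (-(2 * M) * t) * (2 * max 0 (g t) * fderiv ℝ u (x₁ + t • v) v)) t := by
    intro t
    have h1 : HasDerivAt (fun t : ℝ => Real.exp (-(2 * M) * t))
        (Real.exp (-(2 * M) * t) * (-(2 * M))) t := by
      have h := ((hasDerivAt_id t).const_mul (-(2 * M))).exp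
      simpa using h
    have h2 : HasDerivAt (fun t => (max 0 (g t)) ^ 2)
        (2 * max 0 (g t) * fderiv ℝ u (x₁ + t • v) v) t :=
      (hasDerivAt_maxsq (g t)).comp t (hgd t)
    exact h1.mul h2
  have hanti : Antitone (fun t => Real.exp (-(2 * M) * t) * (max 0 (g t)) ^ 2) := by
    refine antitone_of_hasDerivAt_nonpos hkd fun t => ?_
    have h1 : max 0 (g t) * fderiv ℝ u (x₁ + t • v) v ≤ M * (max 0 (g t)) ^ 2 := by
      calc max 0 (g t) * fderiv ℝ u (x₁ + t • v) v ≤ max 0 (g t) * (M * max 0 (g t)) :=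
            mul_le_mul_of_nonneg_left ((le_abs_self _).trans (hgb t)) (le_max_left _ _)
        _ = M * (max 0 (g t)) ^ 2 := by ring
    have h2 : 0 < Real.exp (-(2 * M) * t) := Real.exp_pos _
    have h3 : Real.exp (-(2 * M) * t) * (-(2 * M)) * (max 0 (g t)) ^ 2 +
        Real.exp (-(2 * M) * t) * (2 * max 0 (g t) * fderiv ℝ u (x₁ + t • v) v) =
        2 * Real.exp (-(2 * M) * t) *
          (max 0 (g t) * fderiv ℝ u (x₁ + t • v) v - M * (max 0 (g t)) ^ 2) := by ring
    show _ ≤ _
    rw [h3]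
    exact mul_nonpos_of_nonneg_of_nonpos (by positivity) (by linarith)
  have hg0 : g 0 ≤ 0 := by
    simp only [hg, zero_smul, add_zero]
    linarith
  have hle : ∀ t : ℝ, 0 ≤ t → max 0 (g t) = 0 := by
    intro t ht
    have h1 := hanti ht
    simp only at h1
    rw [max_eq_left hg0] at h1
    have h2 : 0 < Real.exp (-(2 * M) * t) := Real.exp_pos _
    have h3 : Real.exp (-(2 * M) * t) * (max 0 (g t)) ^ 2 ≤ 0 := by
      refine h1.trans (le_of_eq ?_)
      ring
    have h4 : (max 0 (g t)) ^ 2 ≤ 0 := by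
      by_contra hcon
      push Not at hcon
      exact absurd (mul_pos h2 hcon) (not_lt.mpr h3)
    exact pow_eq_zero_iff (two_ne_zero) |>.mp (le_antisymm h4 (sq_nonneg _))
  have hder0 : ∀ t : ℝ, 0 ≤ t → fderiv ℝ u (x₁ + t • v) v = 0 := by
    intro t ht
    have h1 := hgb t
    rw [hle t ht, mul_zero] at h1
    exact abs_nonpos_iff.mp h1
  have hconst : ∀ t ∈ Icc (0 : ℝ) 1, g t = g 0 := by
    refine constant_of_has_deriv_right_zero
      (fun t _ => (hgd t).continuousAt.continuousWithinAt) fun t ht => ?_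
    have h1 := (hgd t).hasDerivWithinAt (s := Ici t)
    rwa [hder0 t ht.1] at h1
  have h1 := hconst 1 ⟨zero_le_one, le_rfl⟩
  simp only [hg, zero_smul, add_zero, one_smul] at h1
  have h2 : x₁ + v = x := by rw [hv]; abel
  rw [h2] at h1
  linarith

end Pool.Agent.Helper3.HS3.GRON
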